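import Pool.Agent.Q27.LT.Auto

/-! Project LT, job AUTO. -/

set_option autoImplicit false

namespace Pool.Agent.Q96.LT

open Pool.Agent.Q27.LT

theorem pad_length {A : Type} (k : ℕ) (x : List A) : (pad k x).length = x.length + k := by
  simp [pad]

theorem pad_get {A : Type} (k : ℕ) (x : List A) (i : ℕ) :
    (pad k x)[i]? = if i < x.length + k then some (x[i]?) else none := by
  unfold pad
  by_cases h : i < x.length
  · rw [List.getElem?_append_left (by simpa using h), List.getElem?_map]
    rw [List.getElem?_eq_getElem h, if_pos (by omega)]
    rfl
  · rw [List.getElem?_append_right (by simpa using h), List.getElem?_replicate]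
    rw [List.getElem?_eq_none (by omega : x.length ≤ i)]
    simp only [List.length_map]
    by_cases h2 : i < x.length + k
    · rw [if_pos (by omega), if_pos h2]
    · rw [if_neg (by omega), if_neg h2]

theorem pad_append {A : Type} (k j : ℕ) (x : List A) : pad k x ++ List.replicate j none = pad (k + j) x := by
  unfold pad
  rw [List.append_assoc, List.replicate_append_replicate]

theorem range_pad {A : Type} (m : ℕ) (u : List A) (h : u.length ≤ m) :
    (List.range m).map (fun k => u[k]?) = pad (m - u.length) u := by
  apply List.ext_getElem?
  intro i
  rw [pad_get, List.getElem?_map]
  by_cases hi : i < m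
  · rw [List.getElem?_range hi, if_pos (by omega)]
    rfl
  · rw [List.getElem?_eq_none (by simpa using hi), if_neg (by omega)]
    rfl

/-- languages cut at the end: some power of `z` with exponent at least `K` completes the word -/
theorem reg_cut {T : Type} {L : Language T} (h : L.IsRegular) (z : T) (K : ℕ) :
    Language.IsRegular ({w | ∃ j, K ≤ j ∧ w ++ List.replicate j z ∈ L} : Language T) := by
  obtain ⟨σ, i, M, e⟩ := h
  let M' : DFA T σ :=
    { step := M.step
      start := M.start
      accept := {s | ∃ j, K ≤ j ∧ M.evalFrom s (List.replicate j z) ∈ M.accept} }
  refine ⟨σ, i, M', ?_⟩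
  ext w
  rw [DFA.mem_accepts]
  change (∃ j, K ≤ j ∧ M.evalFrom (M.evalFrom M.start w) (List.replicate j z) ∈ M.accept) ↔
    ∃ j, K ≤ j ∧ w ++ List.replicate j z ∈ L
  have a : ∀ j, M.evalFrom (M.evalFrom M.start w) (List.replicate j z) ∈ M.accept ↔
      w ++ List.replicate j z ∈ L := by
    intro j
    rw [← DFA.evalFrom_of_append, ← e]
    exact Iff.rfl
  simp only [a]

open Classical in
/-- the words not ending in `z` -/
theorem reg_last {T : Type} (z : T) : Language.IsRegular ({w | w.getLast? ≠ some z} : Language T) := by
  let M : DFA T Bool :=
    { step := fun _ a => decide (a = z)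
      start := false
      accept := {false} }
  have key : ∀ w : List T, M.evalFrom false w = decide (w.getLast? = some z) := by
    intro w
    rcases List.eq_nil_or_concat w with rfl | ⟨y, a, rfl⟩
    · simp
    · rw [List.concat_eq_append, DFA.evalFrom_append_singleton]
      change decide (a = z) = _
      simp
  refine ⟨Bool, inferInstance, M, ?_⟩
  ext w
  rw [DFA.mem_accepts]
  change M.evalFrom false w ∈ ({false} : Set Bool) ↔ w.getLast? ≠ some z
  rw [key]
  simp

/-- the words with first track of the form `pad k x` -/
theorem reg_pad (A B : Type) :
    Language.IsRegular ({w | ∃ (k : ℕ) (x : List A), w.map Prod.fst = pad k x} :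
      Language (Option A × Option B)) := by
  let M : DFA (Option A × Option B) (Bool × Bool) :=
    { step := fun s a => match a.1 with
        | none => (s.1, false)
        | some _ => (s.1 && s.2, s.2)
      start := (true, true)
      accept := {s | s.1 = true} }
  have s0 : ∀ (s : Bool × Bool) (a : Option B), M.step s (none, a) = (s.1, false) := fun _ _ => rfl
  have s1 : ∀ (s : Bool × Bool) (x : A) (a : Option B), M.step s (some x, a) = (s.1 && s.2, s.2) :=
    fun _ _ _ => rfl
  have k0 : ∀ (w : List (Option A × Option B)) (b : Bool), (M.evalFrom (false, b) w).1 = false := by
    intro w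
    induction w with
    | nil => intro b; rfl
    | cons a w ih =>
      intro b
      obtain ⟨a1, a2⟩ := a
      rw [DFA.evalFrom_cons]
      cases a1 with
      | none => rw [s0]; exact ih _
      | some x => rw [s1]; exact ih _
  have k1 : ∀ (w : List (Option A × Option B)), (M.evalFrom (true, false) w).1 = true ↔
      ∃ k : ℕ, w.map Prod.fst = List.replicate k none := by
    intro w
    induction w with
    | nil => simp only [DFA.evalFrom_nil, true_iff]; exact ⟨0, rfl⟩
    | cons a w ih =>
      obtain ⟨a1, a2⟩ := a
      rw [DFA.evalFrom_cons]
      cases a1 with
      | none =>
        rw [s0]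
        change (M.evalFrom (true, false) w).1 = true ↔ _
        rw [ih]
        constructor
        · rintro ⟨k, hk⟩
          exact ⟨k + 1, by rw [List.replicate_succ, ← hk]; rfl⟩
        · rintro ⟨k, hk⟩
          cases k with
          | zero => simp at hk
          | succ k =>
            rw [List.replicate_succ, List.map_cons] at hk
            exact ⟨k, (List.cons.inj hk).2⟩
      | some x =>
        rw [s1]
        change (M.evalFrom (false, false) w).1 = true ↔ _
        rw [k0]
        constructor
        · intro h; simp at h
        · rintro ⟨k, hk⟩
          cases k with
          | zero => simp at hk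
          | succ k =>
            rw [List.replicate_succ, List.map_cons] at hk
            have := (List.cons.inj hk).1
            simp at this
  have k2 : ∀ (w : List (Option A × Option B)), (M.evalFrom (true, true) w).1 = true ↔
      ∃ (k : ℕ) (x : List A), w.map Prod.fst = pad k x := by
    intro w
    induction w with
    | nil => simp only [DFA.evalFrom_nil, true_iff]; exact ⟨0, [], rfl⟩
    | cons a w ih =>
      obtain ⟨a1, a2⟩ := a
      rw [DFA.evalFrom_cons]
      cases a1 with
      | none =>
        rw [s0]
        change (M.evalFrom (true, false) w).1 = true ↔ _
        rw [k1]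
        constructor
        · rintro ⟨k, hk⟩
          exact ⟨k + 1, [], by rw [List.map_cons, hk]; rfl⟩
        · rintro ⟨k, x, hk⟩
          cases x with
          | nil =>
            cases k with
            | zero => simp [pad] at hk
            | succ k =>
              have hk' : none :: w.map Prod.fst = none :: List.replicate k none := hk
              exact ⟨k, (List.cons.inj hk').2⟩
          | cons y x =>
            have hk' : none :: w.map Prod.fst = some y :: pad k x := hk
            have := (List.cons.inj hk').1
            simp at this
      | some y =>
        rw [s1]
        change (M.evalFrom (true, true) w).1 = true ↔ _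
        rw [ih]
        constructor
        · rintro ⟨k, x, hk⟩
          exact ⟨k, y :: x, by rw [List.map_cons, hk]; rfl⟩
        · rintro ⟨k, x, hk⟩
          cases x with
          | nil =>
            cases k with
            | zero => simp [pad] at hk
            | succ k =>
              have hk' : some y :: w.map Prod.fst = none :: List.replicate k none := hk
              have := (List.cons.inj hk').1
              simp at this
          | cons y' x =>
            have hk' : some y :: w.map Prod.fst = some y' :: pad k x := hk
            exact ⟨k, x, (List.cons.inj hk').2⟩
  refine ⟨Bool × Bool, inferInstance, M, ?_⟩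
  ext w
  rw [DFA.mem_accepts]
  exact k2 w

theorem s_auto (h1 : S_graph) (h2 : S_pad) : S_auto := by
  intro A B hA hB F hF
  obtain ⟨K, F', hF', hlen, e⟩ := h2 A B hA hB F hF
  have r1 := h1 (Option A) (Option B) inferInstance inferInstance F' hF'
  have r2 := (reg_cut r1 ((none : Option A), (none : Option B)) K).inf
    ((reg_last ((none : Option A), (none : Option B))).inf (reg_pad A B))
  unfold Automatic
  convert r2 using 1
  ext w
  change (∃ u : List A, w = conv u (F u)) ↔
    (∃ j, K ≤ j ∧ (w ++ List.replicate j (none, none)).map Prod.snd =
      F' ((w ++ List.replicate j (none, none)).map Prod.fst)) ∧ (w.getLast? ≠ some (none, none)) ∧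
    ∃ (k : ℕ) (x : List A), w.map Prod.fst = pad k x
  constructor
  · rintro ⟨u, rfl⟩
    set v := F u with hv
    set m := max u.length v.length with hm
    have f1 : (conv u v).map Prod.fst = pad (m - u.length) u := by
      unfold conv
      rw [List.map_map, ← range_pad m u (le_max_left _ _)]
      rfl
    have f2 : (conv u v).map Prod.snd = pad (m - v.length) v := by
      unfold conv
      rw [List.map_map, ← range_pad m v (le_max_right _ _)]
      rfl
    have m1 : u.length ≤ m := le_max_left _ _
    have m2 : v.length ≤ m := le_max_right _ _
    refine ⟨⟨K, le_rfl, ?_⟩, ?_, ⟨_, _, f1⟩⟩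
    · rw [List.map_append, List.map_append, f1, f2, List.map_replicate, List.map_replicate,
        pad_append, pad_append, e u _ (by omega), ← hv]
      congr 1
      omega
    · intro h
      have hml : (conv u v).length = m := by simp [conv, hm]
      rw [List.getLast?_eq_getElem?, hml] at h
      have h' : m - 1 < m := by
        by_contra h0
        rw [List.getElem?_eq_none (by omega)] at h
        simp at h
      unfold conv at h
      rw [← hm, List.getElem?_map, List.getElem?_range h'] at h
      simp only [Option.map_some, Option.some.injEq, Prod.mk.injEq, List.getElem?_eq_none_iff] at h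
      omega
  · rintro ⟨⟨j, hj, hjw⟩, hl, ⟨k, u, hk⟩⟩
    refine ⟨u, ?_⟩
    set v := F u with hv
    have hlv : v.length ≤ u.length + K := hlen u
    rw [List.map_append, List.map_append, hk, List.map_replicate, List.map_replicate, pad_append,
      e u _ (by omega), ← hv] at hjw
    have hn : w.length = u.length + k := by
      have := congrArg List.length hk
      rw [List.length_map, pad_length] at this
      exact this
    have g1 : ∀ i, i < w.length → (w[i]?).map Prod.fst = some (u[i]?) := by
      intro i hi
      rw [← List.getElem?_map, hk, pad_get, if_pos (by omega)]
    have g2 : ∀ i, i < w.length → (w[i]?).map Prod.snd = some (v[i]?) := by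
      intro i hi
      have h3 := congrArg (fun l => l[i]?) hjw
      simp only [pad_get] at h3
      rw [List.getElem?_append_left (by simpa using hi), if_pos (by omega), List.getElem?_map] at h3
      exact h3
    have g : ∀ i, i < w.length → w[i]? = some (u[i]?, v[i]?) := by
      intro i hi
      have h3 := g1 i hi
      have h4 := g2 i hi
      rw [List.getElem?_eq_getElem hi] at h3 h4 ⊢
      simp only [Option.map_some, Option.some.injEq] at h3 h4 ⊢
      exact Prod.ext h3 h4
    have hv1 : v.length ≤ w.length := by
      by_contra h
      have h3 := congrArg (fun l => l[v.length - 1]?) hjw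
      simp only [pad_get] at h3
      rw [List.getElem?_append_right (by rw [List.length_map]; omega), if_pos (by omega),
        List.getElem?_replicate, if_pos (by rw [List.length_map]; omega),
        List.getElem?_eq_getElem (by omega)] at h3
      simp at h3
    have hmax : w.length = max u.length v.length := by
      apply le_antisymm
      · by_contra h
        have h' : max u.length v.length < w.length := by omega
        have m1 : u.length ≤ max u.length v.length := le_max_left _ _
        have m2 : v.length ≤ max u.length v.length := le_max_right _ _
        apply hl
        rw [List.getLast?_eq_getElem?, g _ (by omega), List.getElem?_eq_none (by omega),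
          List.getElem?_eq_none (by omega)]
      · exact max_le (by omega) hv1
    apply List.ext_getElem?
    intro i
    unfold conv
    rw [← hmax, List.getElem?_map]
    by_cases hi : i < w.length
    · rw [g i hi, List.getElem?_range hi]
      rfl
    · rw [List.getElem?_eq_none (by omega), List.getElem?_eq_none (by simpa using hi)]
      rfl

end Pool.Agent.Q96.LT
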