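import Pool.Agent.Q27.LT.Auto

/-! Project LT, job GRAPH. -/

set_option autoImplicit false

namespace Pool.Agent.Q96.LT

open Pool.Agent.Q27.LT

theorem rrun_snoc {A B Q : Type} (f : Q → A → Q) (o : Q → A → B) (q : Q) (l : List A) (a : A) :
    (rrun f o q (l ++ [a])).1 = (rrun f o (f q a) l).1 ∧
    (rrun f o q (l ++ [a])).2 = (rrun f o (f q a) l).2 ++ [o q a] := by
  induction l with
  | nil => simp [rrun]
  | cons b l ih =>
    obtain ⟨h1, h2⟩ := ih
    simp only [List.cons_append, rrun, h1, h2, and_self]

theorem rrun_reverse {A B Q : Type} (f : Q → A → Q) (o : Q → A → B) (q : Q) (l : List A) :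
    (rrun f o q l.reverse).2.reverse = lrun f o q l := by
  induction l generalizing q with
  | nil => rfl
  | cons a l ih =>
    rw [List.reverse_cons, (rrun_snoc f o q l.reverse a).2, List.reverse_append]
    simp [lrun, ih]

open Classical in
theorem graph_left {A B Q : Type} [Finite Q] (f : Q → A → Q) (o : Q → A → B) (q : Q) :
    Language.IsRegular ({w | w.map Prod.snd = lrun f o q (w.map Prod.fst)} : Language (A × B)) := by
  haveI : Fintype Q := Fintype.ofFinite Q
  let M : DFA (A × B) (Option Q) :=
    { step := fun s p => match s with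
        | none => none
        | some r => if p.2 = o r p.1 then some (f r p.1) else none
      start := some q
      accept := {s | s ≠ none} }
  have h0 : ∀ w, M.evalFrom none w = none := by
    intro w
    induction w with
    | nil => rfl
    | cons a w ih => rw [DFA.evalFrom_cons]; exact ih
  have h1 : ∀ (w : List (A × B)) (r : Q), M.evalFrom (some r) w ≠ none ↔
      w.map Prod.snd = lrun f o r (w.map Prod.fst) := by
    intro w
    induction w with
    | nil => intro r; simp [lrun]
    | cons a w ih =>
      intro r
      rw [DFA.evalFrom_cons]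
      by_cases h : a.2 = o r a.1
      · have e : M.step (some r) a = some (f r a.1) := if_pos h
        rw [e, ih]
        simp [lrun, h]
      · have e : M.step (some r) a = none := if_neg h
        rw [e, h0]
        simp [lrun, h]
  refine ⟨Option Q, inferInstance, M, ?_⟩
  ext w
  rw [DFA.mem_accepts]
  exact h1 w q

theorem graph_right {A B Q : Type} [Finite Q] (f : Q → A → Q) (o : Q → A → B) (q : Q) :
    Language.IsRegular ({w | w.map Prod.snd = (rrun f o q (w.map Prod.fst)).2} : Language (A × B)) := by
  apply Language.IsRegular.of_reverse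
  have e : (Language.reverse ({w | w.map Prod.snd = (rrun f o q (w.map Prod.fst)).2} : Language (A × B)))
      = ({w | w.map Prod.snd = lrun f o q (w.map Prod.fst)} : Language (A × B)) := by
    ext w
    rw [Language.mem_reverse]
    change (w.reverse.map Prod.snd = (rrun f o q (w.reverse.map Prod.fst)).2) ↔
      (w.map Prod.snd = lrun f o q (w.map Prod.fst))
    rw [List.map_reverse, List.map_reverse, ← rrun_reverse]
    constructor
    · intro h
      rw [← h, List.reverse_reverse]
    · intro h
      rw [h, List.reverse_reverse]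
  rw [e]
  exact graph_left f o q

theorem graph_comp {A B C : Type} [Finite B] {F : List A → List B} {G : List B → List C}
    (hF : ∀ x, (F x).length = x.length) 
    (h1 : Language.IsRegular ({w | w.map Prod.snd = F (w.map Prod.fst)} : Language (A × B)))
    (h2 : Language.IsRegular ({w | w.map Prod.snd = G (w.map Prod.fst)} : Language (B × C)))
    (hG : ∀ x, (G x).length = x.length) :
    Language.IsRegular ({w | w.map Prod.snd = G (F (w.map Prod.fst))} : Language (A × C)) := by
  obtain ⟨σ1, i1, M1, e1⟩ := h1
  obtain ⟨σ2, i2, M2, e2⟩ := h2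
  let M : DFA (A × C) (Set (σ1 × σ2)) :=
    { step := fun S p => {t | ∃ b : B, ∃ s ∈ S, t = (M1.step s.1 (p.1, b), M2.step s.2 (b, p.2))}
      start := {(M1.start, M2.start)}
      accept := {S | ∃ s ∈ S, s.1 ∈ M1.accept ∧ s.2 ∈ M2.accept} }
  have key : ∀ (w : List (A × C)) (S : Set (σ1 × σ2)), M.evalFrom S w =
      {t | ∃ v : List B, v.length = w.length ∧ ∃ s ∈ S,
        t = (M1.evalFrom s.1 ((w.map Prod.fst).zip v), M2.evalFrom s.2 (v.zip (w.map Prod.snd)))} := by
    intro w
    induction w with
    | nil =>
      intro S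
      ext t
      simp only [DFA.evalFrom_nil, List.map_nil, List.length_nil, List.length_eq_zero_iff, Set.mem_setOf_eq]
      constructor
      · intro h
        exact ⟨[], rfl, t, h, rfl⟩
      · rintro ⟨v, rfl, s, hs, rfl⟩
        exact hs
    | cons p w ih =>
      intro S
      rw [DFA.evalFrom_cons, ih]
      ext t
      simp only [Set.mem_setOf_eq]
      constructor
      · rintro ⟨v, hv, s, ⟨b, s0, hs0, rfl⟩, rfl⟩
        refine ⟨b :: v, by simp [hv], s0, hs0, ?_⟩
        simp only [List.map_cons, List.zip_cons_cons, DFA.evalFrom_cons]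
      · rintro ⟨v, hv, s, hs, rfl⟩
        cases v with
        | nil => simp at hv
        | cons b v =>
          refine ⟨v, by simpa using hv, _, ⟨b, s, hs, rfl⟩, ?_⟩
          simp only [List.map_cons, List.zip_cons_cons, DFA.evalFrom_cons]
  haveI : Fintype (Set (σ1 × σ2)) := Fintype.ofFinite _
  refine ⟨Set (σ1 × σ2), inferInstance, M, ?_⟩
  ext w
  rw [DFA.mem_accepts]
  change (∃ s ∈ M.evalFrom {(M1.start, M2.start)} w, s.1 ∈ M1.accept ∧ s.2 ∈ M2.accept) ↔
    w.map Prod.snd = G (F (w.map Prod.fst))
  rw [key]
  have a1 : ∀ u : List (A × B), M1.evalFrom M1.start u ∈ M1.accept ↔ u.map Prod.snd = F (u.map Prod.fst) := by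
    intro u
    have := Set.ext_iff.mp e1 u
    exact this
  have a2 : ∀ u : List (B × C), M2.evalFrom M2.start u ∈ M2.accept ↔ u.map Prod.snd = G (u.map Prod.fst) := by
    intro u
    have := Set.ext_iff.mp e2 u
    exact this
  constructor
  · rintro ⟨t, ⟨v, hv, s, hs, rfl⟩, h3, h4⟩
    rw [Set.mem_singleton_iff] at hs
    subst hs
    have h3' := (a1 _).mp h3
    have h4' := (a2 _).mp h4
    rw [List.map_snd_zip (by simp [hv]), List.map_fst_zip (by simp [hv])] at h3'
    rw [List.map_snd_zip (by simp [hv]), List.map_fst_zip (by simp [hv])] at h4'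
    rw [h4', h3']
  · intro h
    refine ⟨_, ⟨F (w.map Prod.fst), by simp [hF], _, Set.mem_singleton _, rfl⟩, ?_, ?_⟩
    · apply (a1 _).mpr
      rw [List.map_snd_zip (by simp [hF]), List.map_fst_zip (by simp [hF])]
    · apply (a2 _).mpr
      rw [List.map_snd_zip (by simp [hF]), List.map_fst_zip (by simp [hF])]
      exact h

theorem s_graph : S_graph := by
  intro A B hA hB F h
  induction h with
  | left f o q => exact graph_left f o q
  | right f o q => exact graph_right f o q
  | comp h1 h2 ih1 ih2 =>
    exact graph_comp h1.length (ih1 hA inferInstance) (ih2 inferInstance hB) h2.length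

end Pool.Agent.Q96.LT
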