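import Pool.Agent.Q27.LT.Auto

/-! Project LT, job PAD. -/

set_option autoImplicit false

namespace Pool.Agent.Q96.LT

open Pool.Agent.Q27.LT

/-- `f` on padded letters: nothing happens at `none` -/
def pf {A Q : Type} (f : Q → A → Q) (q : Q) : Option A → Q
  | none => q
  | some a => f q a

/-- `o` on padded letters -/
def po {A B Q : Type} (o : Q → A → B) (q : Q) : Option A → Option B
  | none => none
  | some a => some (o q a)

theorem lrun_none {A B Q : Type} (f : Q → A → Q) (o : Q → A → B) (q : Q) (k : ℕ) :
    lrun (pf f) (po o) q (List.replicate k none) = List.replicate k none := by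
  induction k with
  | zero => rfl
  | succ k ih =>
    rw [List.replicate_succ, List.replicate_succ]
    simp only [lrun, pf, po, ih]

theorem rrun_none {A B Q : Type} (f : Q → A → Q) (o : Q → A → B) (q : Q) (k : ℕ) :
    rrun (pf f) (po o) q (List.replicate k none) = (q, List.replicate k none) := by
  induction k with
  | zero => rfl
  | succ k ih =>
    rw [List.replicate_succ, List.replicate_succ]
    simp only [rrun, ih, pf, po]

theorem pad_left {A B Q : Type} (f : Q → A → Q) (o : Q → A → B) (q : Q) (k : ℕ) (x : List A) :
    lrun (pf f) (po o) q (pad k x) = pad k (lrun f o q x) := by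
  induction x generalizing q with
  | nil => exact lrun_none f o q k
  | cons a x ih =>
    change lrun (pf f) (po o) q (some a :: pad k x) = some (o q a) :: pad k (lrun f o (f q a) x)
    rw [← ih]
    rfl

theorem pad_right {A B Q : Type} (f : Q → A → Q) (o : Q → A → B) (q : Q) (k : ℕ) (x : List A) :
    rrun (pf f) (po o) q (pad k x) = ((rrun f o q x).1, pad k (rrun f o q x).2) := by
  induction x with
  | nil => exact rrun_none f o q k
  | cons a x ih =>
    change rrun (pf f) (po o) q (some a :: pad k x) = _
    simp only [rrun, ih]
    rfl

theorem pad_lp {A B : Type} {F : List A → List B} (h : LP F) (hA : Finite A) (hB : Finite B) :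
    ∃ F' : List (Option A) → List (Option B), LP F' ∧ ∀ (x : List A) (k : ℕ), F' (pad k x) = pad k (F x) := by
  induction h with
  | left f o q => exact ⟨_, LP.left (pf f) (po o) q, fun x k => pad_left f o q k x⟩
  | right f o q =>
    refine ⟨_, LP.right (pf f) (po o) q, fun x k => ?_⟩
    rw [pad_right]
  | comp h1 h2 ih1 ih2 =>
    obtain ⟨F', hF', e1⟩ := ih1 hA inferInstance
    obtain ⟨G', hG', e2⟩ := ih2 inferInstance hB
    exact ⟨_, LP.comp hF' hG', fun x k => by rw [e1, e2]⟩

/-- first pass of the tail operation (from the right): marks the last letter -/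
def mf {A : Type} (_ : Bool) : Option A → Bool
  | none => false
  | some _ => true

def mo {A : Type} (s : Bool) : Option A → Option A × Bool
  | none => (none, false)
  | some a => (some a, !s)

theorem mark_none {A : Type} (k : ℕ) :
    rrun (mf (A := A)) mo false (List.replicate k none) = (false, List.replicate k (none, false)) := by
  induction k with
  | zero => rfl
  | succ k ih =>
    rw [List.replicate_succ, List.replicate_succ]
    simp only [rrun, ih, mf, mo]

theorem mark_snoc {A : Type} (k : ℕ) (x : List A) (a : A) :
    rrun (mf (A := A)) mo false (pad k (x ++ [a])) =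
      (true, x.map (fun b => (some b, false)) ++ (some a, true) :: List.replicate k (none, false)) := by
  induction x with
  | nil =>
    change rrun (mf (A := A)) mo false (some a :: List.replicate k none) = _
    simp only [rrun, mark_none]
    rfl
  | cons b x ih =>
    change rrun (mf (A := A)) mo false (some b :: pad k (x ++ [a])) = _
    simp only [rrun, ih]
    rfl

/-- what happens at the last letter -/
def lastLet {A : Type} (c : Act A) (a : A) : Option A :=
  match c with
  | .pop => none
  | _ => some a

/-- what happens at the first `none` -/
def firstNone {A : Type} (c : Act A) : Option A :=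
  match c with
  | .push b => some b
  | _ => none

def tf {A Q : Type} (f : Q → A → Q) (s : Q × Bool) : Option A × Bool → Q × Bool
  | (none, _) => (s.1, false)
  | (some a, _) => (f s.1 a, s.2)

def to' {A Q : Type} (f : Q → A → Q) (t : Q → Act A) (s : Q × Bool) : Option A × Bool → Option A
  | (none, _) => if s.2 then firstNone (t s.1) else none
  | (some a, m) => if m then lastLet (t (f s.1 a)) a else some a

theorem tail_none {A Q : Type} (f : Q → A → Q) (t : Q → Act A) (q : Q) (k : ℕ) :
    lrun (tf f) (to' f t) (q, false) (List.replicate k (none, false)) = List.replicate k none := by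
  induction k with
  | zero => rfl
  | succ k ih =>
    rw [List.replicate_succ, List.replicate_succ]
    simp only [lrun, tf, to', ih]
    rfl

theorem tail_none' {A Q : Type} (f : Q → A → Q) (t : Q → Act A) (q : Q) (k : ℕ) :
    lrun (tf f) (to' f t) (q, true) (List.replicate (k + 1) (none, false))
      = firstNone (t q) :: List.replicate k none := by
  rw [List.replicate_succ]
  simp only [lrun, tf, to', if_true, tail_none]

theorem tail_snoc {A Q : Type} (f : Q → A → Q) (t : Q → Act A) (q : Q) (k : ℕ) (x : List A) (a : A) :
    lrun (tf f) (to' f t) (q, true)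
      (x.map (fun b => (some b, false)) ++ (some a, true) :: List.replicate (k + 1) (none, false)) =
      x.map some ++ lastLet (t ((x ++ [a]).foldl f q)) a :: firstNone (t ((x ++ [a]).foldl f q))
        :: List.replicate k none := by
  induction x generalizing q with
  | nil =>
    change lrun (tf f) (to' f t) (q, true) ((some a, true) :: List.replicate (k + 1) (none, false)) = _
    simp only [lrun, tf, to', if_true, tail_none']
    rfl
  | cons b x ih =>
    have e := ih (f q b)
    change some b :: lrun (tf f) (to' f t) (f q b, true)
      (x.map (fun b => (some b, false)) ++ (some a, true) :: List.replicate (k + 1) (none, false)) = _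
    rw [e]
    rfl

theorem pad_tail {A Q : Type} (f : Q → A → Q) (q : Q) (t : Q → Act A) (x : List A) (k : ℕ) :
    lrun (tf f) (to' f t) (q, true) (rrun (mf (A := A)) mo false (pad (k + 1) x)).2 =
      pad (k + 1 + x.length - (tailop f q t x).length) (tailop f q t x) := by
  rcases List.eq_nil_or_concat x with rfl | ⟨y, a, rfl⟩
  · change lrun (tf f) (to' f t) (q, true) (rrun (mf (A := A)) mo false (List.replicate (k + 1) none)).2 = _
    rw [mark_none]
    simp only []
    rw [tail_none']
    unfold tailop
    simp only [List.foldl_nil]
    cases h : t q with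
    | keep => simp [Act.run, firstNone, pad, List.replicate_succ]
    | push b => simp [Act.run, firstNone, pad]
    | pop => simp [Act.run, firstNone, pad, List.replicate_succ]
  · rw [List.concat_eq_append, mark_snoc]
    simp only []
    rw [tail_snoc]
    unfold tailop
    cases h : t ((y ++ [a]).foldl f q) with
    | keep => simp [Act.run, firstNone, lastLet, pad, List.replicate_succ]
    | push b =>
      have e : k + 1 + (y.length + 1) - (y.length + (1 + 1)) = k := by omega
      simp [Act.run, firstNone, lastLet, pad, e]
    | pop =>
      have e : k + 1 + (y.length + 1) - y.length = k + 1 + 1 := by omega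
      simp [Act.run, firstNone, lastLet, pad, e, List.replicate_succ]

theorem tailop_length {A Q : Type} (f : Q → A → Q) (q : Q) (t : Q → Act A) (x : List A) :
    (tailop f q t x).length ≤ x.length + 1 := by
  unfold tailop
  cases h : t (x.foldl f q) with
  | keep => simp [Act.run]
  | push b => simp [Act.run]
  | pop => simp only [Act.run, List.length_dropLast]; omega

theorem s_pad : S_pad := by
  intro A B hA hB F h
  induction h with
  | lp h =>
    obtain ⟨F', hF', e⟩ := pad_lp h hA hB
    refine ⟨0, F', hF', fun x => by rw [h.length]; omega, fun x k _ => ?_⟩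
    rw [e, h.length]
    congr 1
    omega
  | @tail A Q _ f q t =>
    refine ⟨1, _, LP.comp (LP.right (mf (A := A)) mo false) (LP.left (tf f) (to' f t) (q, true)), ?_, ?_⟩
    · exact tailop_length f q t
    · intro x k hk
      obtain ⟨k', rfl⟩ : ∃ k', k = k' + 1 := ⟨k - 1, by omega⟩
      exact pad_tail f q t x k'
  | @comp A B C _ F G h1 h2 ih1 ih2 =>
    obtain ⟨K1, F', hF', l1, e1⟩ := ih1 hA inferInstance
    obtain ⟨K2, G', hG', l2, e2⟩ := ih2 inferInstance hB
    refine ⟨K1 + K2, _, LP.comp hF' hG', ?_, ?_⟩
    · intro x
      have h3 := l1 x
      have h4 := l2 (F x)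
      change (G (F x)).length ≤ _
      omega
    · intro x k hk
      have h3 := l1 x
      have h4 := l2 (F x)
      change G' (F' (pad k x)) = pad (k + x.length - (G (F x)).length) (G (F x))
      rw [e1 x k (by omega), e2 (F x) _ (by omega)]
      congr 1
      omega

end Pool.Agent.Q96.LT
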